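import Pool.Agent.W809.FKM.Stms

/-! Tasks FK-INTW, FK-EXPC (project of helper809, MP_120ee9_mp). -/

set_option autoImplicit false

open scoped ComplexConjugate Topology
open Complex

namespace Pool.Agent.W214.FKM

open Pool.Agent.W809.FKM

section

variable {E : Type} [NormedAddCommGroup E] [InnerProductSpace ℂ E] [CompleteSpace E]

theorem aeval_mono_app (H : E →L[ℂ] E) (n : ℕ) (c : ℝ) (x : E) :
    (Polynomial.aeval H (Polynomial.monomial n c)) x = (c : ℂ) • (H ^ n) x := by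
  rw [Polynomial.aeval_monomial, Algebra.algebraMap_eq_smul_one, smul_mul_assoc, one_mul,
    ← Complex.coe_smul]
  rfl

theorem pow_intw (Φ : E → E) (H H' : E →L[ℂ] E) (hint : ∀ x, Φ (H x) = H' (Φ x)) (n : ℕ) :
    ∀ x, Φ ((H ^ n) x) = (H' ^ n) (Φ x) := by
  induction n with
  | zero => intro x; rfl
  | succ n ih =>
    intro x
    rw [pow_succ, pow_succ]
    change Φ ((H ^ n) (H x)) = (H' ^ n) (H' (Φ x))
    rw [ih, hint]

theorem poly_intw (Φ : E → E) (H H' : E →L[ℂ] E) (hadd : ∀ x y, Φ (x + y) = Φ x + Φ y)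
    (hsm : ∀ (c : ℝ) x, Φ ((c : ℂ) • x) = (c : ℂ) • Φ x) (hint : ∀ x, Φ (H x) = H' (Φ x))
    (p : Polynomial ℝ) :
    ∀ x, Φ ((Polynomial.aeval H p) x) = (Polynomial.aeval H' p) (Φ x) := by
  induction p using Polynomial.induction_on' with
  | add p q hp hq =>
    intro x
    rw [map_add, map_add]
    change Φ ((Polynomial.aeval H p) x + (Polynomial.aeval H q) x) =
      (Polynomial.aeval H' p) (Φ x) + (Polynomial.aeval H' q) (Φ x)
    rw [hadd, hp, hq]
  | monomial n c =>
    intro x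
    rw [aeval_mono_app, aeval_mono_app, hsm, pow_intw Φ H H' hint]

/-- uniform polynomial approximation of the functional calculus on two operators -/
theorem approx (H : E →L[ℂ] E) (hH : IsSelfAdjoint H) (f : ℝ → ℝ) (hf : Continuous f) (r : ℝ)
    (hr : ‖H‖ ≤ r) (p : Polynomial ℝ) (ε : ℝ) (hε : 0 ≤ ε)
    (hp : ∀ t ∈ Set.Icc (-r) r, |p.eval t - f t| ≤ ε) :
    ‖Polynomial.aeval H p - cfc f H‖ ≤ ε := by
  rw [← cfc_polynomial (R := ℝ) p H, ← cfc_sub (R := ℝ) _ _ H (by fun_prop) (by fun_prop)]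
  refine norm_cfc_le hε fun t ht => ?_
  rw [Real.norm_eq_abs]
  refine hp t ?_
  have h1 : |t| ≤ r := by
    by_cases hE : Nontrivial E
    · exact (spectrum.norm_le_norm_of_mem ht).trans hr
    · rw [not_nontrivial_iff_subsingleton] at hE
      have : Subsingleton (E →L[ℂ] E) := inferInstance
      rw [spectrum.of_subsingleton] at ht
      exact absurd ht (Set.notMem_empty t)
  exact abs_le.1 h1

end

theorem intw : S_INTW := by
  intro E _ _ _ Φ H H' f hΦ hadd hsm hH hH' hint hf x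
  set r : ℝ := max ‖H‖ ‖H'‖ with hr
  have hpoly : ∀ n : ℕ, ∃ p : Polynomial ℝ, ∀ t ∈ Set.Icc (-r) r, |p.eval t - f t| < 1 / ((n : ℝ) + 1) :=
    fun n => exists_polynomial_near_of_continuousOn (-r) r f hf.continuousOn _ (by positivity)
  choose p hp using hpoly
  have hconv : ∀ T : E →L[ℂ] E, IsSelfAdjoint T → ‖T‖ ≤ r → ∀ y : E,
      Filter.Tendsto (fun n => (Polynomial.aeval T (p n)) y) Filter.atTop (𝓝 (cfc f T y)) := by
    intro T hT hTr y
    have h1 : Filter.Tendsto (fun n => Polynomial.aeval T (p n)) Filter.atTop (𝓝 (cfc f T)) := by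
      rw [tendsto_iff_norm_sub_tendsto_zero]
      refine squeeze_zero (fun n => norm_nonneg _) (fun n => approx T hT f hf r hTr (p n)
        (1 / ((n : ℝ) + 1)) (by positivity) (fun t ht => (hp n t ht).le)) ?_
      exact tendsto_one_div_add_atTop_nhds_zero_nat
    exact ((ContinuousLinearMap.apply ℂ E y).continuous.tendsto _).comp h1
  have h1 := (hΦ.tendsto _).comp (hconv H hH (le_max_left _ _) x)
  have h2 := hconv H' hH' (le_max_right _ _) (Φ x)
  refine tendsto_nhds_unique h1 (h2.congr fun n => ?_)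
  exact (poly_intw Φ H H' hadd hsm hint (p n) x).symm

theorem tcfc : S_TCFC := by
  intro E _ _ _ Θ H g hΘ hH hT hg ψ
  refine (intw E (fun x => Θ x) H H g Θ.continuous (fun x y => map_add Θ x y) (fun c x => ?_) hH hH
    (fun x => (hT x).symm) hg ψ).symm
  rw [Θ.map_smulₛₗ]
  simp

theorem expc : S_EXPC := by
  intro E _ _ _ H g hH hg
  have hn : IsStarNormal H := hH.isStarNormal
  have e1 : (2 * (Real.pi : ℂ) * I) • cfc g H =
      cfc (fun z : ℂ => 2 * (Real.pi : ℂ) * I * (g z.re : ℂ)) H := by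
    rw [cfc_real_eq_complex g hH]
    exact (cfc_const_mul (R := ℂ) (2 * (Real.pi : ℂ) * I) (fun z : ℂ => (g z.re : ℂ)) H
      (by fun_prop)).symm
  unfold eA
  rw [e1, ← CFC.complex_exp_eq_normedSpace_exp (cfc_predicate (R := ℂ) _ H),
    ← cfc_comp' (R := ℂ) Complex.exp _ H (by fun_prop) (by fun_prop) hn,
    cfc_real_eq_complex _ hH, cfc_real_eq_complex _ hH,
    ← cfc_const_mul (R := ℂ) I _ H (by fun_prop),
    ← cfc_add (R := ℂ) H _ _ (by fun_prop) (by fun_prop)]
  refine cfc_congr fun z _ => ?_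
  show Complex.exp (2 * (Real.pi : ℂ) * I * (g z.re : ℂ)) =
    ((Real.cos (2 * Real.pi * g z.re) : ℝ) : ℂ) + I * ((Real.sin (2 * Real.pi * g z.re) : ℝ) : ℂ)
  have e2 : 2 * (Real.pi : ℂ) * I * (g z.re : ℂ) = ((2 * Real.pi * g z.re : ℝ) : ℂ) * I := by
    push_cast
    ring
  rw [e2, Complex.exp_mul_I, ← Complex.ofReal_cos, ← Complex.ofReal_sin]
  ring

end Pool.Agent.W214.FKM
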