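import Pool.Agent.W809.FKM.Stms

/-! Tasks FK-ALT, FK-XYB (project of helper809, MP_120ee9_mp). -/

set_option autoImplicit false

open scoped ComplexConjugate Topology
open Complex

namespace Pool.Agent.W214.FKM

open Pool.Agent.W809.FKM

theorem alt : S_ALT := by
  intro V _ _ _ B hB
  have hanti : ∀ x y, B x y = -B y x := by
    intro x y
    have h := hB (x + y)
    simp only [map_add, LinearMap.add_apply, hB, zero_add, add_zero] at h
    linear_combination h
  obtain ⟨C, hC⟩ := Submodule.exists_isCompl (LinearMap.ker B)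
  have hdim := Submodule.finrank_add_eq_of_isCompl hC
  set n := Module.finrank ℂ C with hn
  let b : Module.Basis (Fin n) ℂ C := Module.finBasis ℂ C
  let A : Matrix (Fin n) (Fin n) ℂ := Matrix.of fun i j => B (b i : V) (b j : V)
  have hA : A.transpose = -A := by
    ext i j
    exact hanti _ _
  have hdet : A.det ≠ 0 := by
    intro h0
    obtain ⟨v, hv0, hv⟩ := Matrix.exists_vecMul_eq_zero_iff.2 h0
    set c : C := ∑ i, v i • b i with hc
    have h1 : ∀ j, B (c : V) (b j : V) = 0 := by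
      intro j
      have h2 := congrFun hv j
      simp only [Matrix.vecMul, dotProduct, Pi.zero_apply] at h2
      rw [hc]
      simp only [Submodule.coe_sum, Submodule.coe_smul, map_sum, map_smul, LinearMap.sum_apply,
        LinearMap.smul_apply, smul_eq_mul]
      exact h2
    have h3 : ∀ y : C, B (c : V) (y : V) = 0 := by
      intro y
      rw [← b.sum_repr y]
      simp only [Submodule.coe_sum, Submodule.coe_smul, map_sum, map_smul, h1, smul_zero,
        Finset.sum_const_zero]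
    have h4 : B (c : V) = 0 := by
      ext x
      have hx : x ∈ LinearMap.ker B ⊔ C := by rw [hC.sup_eq_top]; exact Submodule.mem_top
      obtain ⟨k, hk, y, hy, rfl⟩ := Submodule.mem_sup.1 hx
      rw [map_add, h3 ⟨y, hy⟩, hanti, LinearMap.mem_ker.1 hk]
      simp
    have h5 : (c : V) = 0 := by
      have : (c : V) ∈ LinearMap.ker B ⊓ C := ⟨LinearMap.mem_ker.2 h4, c.2⟩
      rw [hC.inf_eq_bot] at this
      simpa using this
    have h6 : c = 0 := by exact_mod_cast h5
    apply hv0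
    funext i
    exact Fintype.linearIndependent_iff.1 b.linearIndependent v h6 i
  have h7 : A.det = (-1) ^ n * A.det := by
    have h8 : A.transpose.det = A.det := Matrix.det_transpose A
    rw [hA, Matrix.det_neg, Fintype.card_fin] at h8
    exact h8.symm
  have h9 : ((-1 : ℂ)) ^ n = 1 := by
    have h10 : ((-1 : ℂ) ^ n - 1) * A.det = 0 := by linear_combination -h7
    exact sub_eq_zero.1 ((mul_eq_zero.1 h10).resolve_right hdet)
  have h11 : Even n := by
    rcases Nat.even_or_odd n with h | h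
    · exact h
    · rw [h.neg_one_pow] at h9
      norm_num at h9
  obtain ⟨t, ht⟩ := h11
  omega

theorem xy : S_XY := by
  intro E _ _ _ X Y
  unfold par
  congr 1
  have hf : ∀ x ∈ LinearMap.ker ((1 + X * Y : E →L[ℂ] E) : E →ₗ[ℂ] E),
      (Y : E →ₗ[ℂ] E) x ∈ LinearMap.ker ((1 + Y * X : E →L[ℂ] E) : E →ₗ[ℂ] E) := by
    intro x hx
    have hx' : x + X (Y x) = 0 := hx
    show Y x + Y (X (Y x)) = 0
    rw [← map_add, hx', map_zero]
  have hg : ∀ x ∈ LinearMap.ker ((1 + Y * X : E →L[ℂ] E) : E →ₗ[ℂ] E),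
      ((-X : E →L[ℂ] E) : E →ₗ[ℂ] E) x ∈ LinearMap.ker ((1 + X * Y : E →L[ℂ] E) : E →ₗ[ℂ] E) := by
    intro x hx
    have hx' : x + Y (X x) = 0 := hx
    show (-X x) + X (Y (-X x)) = 0
    have h1 : Y (X x) = -x := by rw [← sub_eq_zero]; rw [← hx']; abel
    rw [map_neg, h1]
    simp
  refine LinearEquiv.finrank_eq (LinearEquiv.ofLinearMap ((Y : E →ₗ[ℂ] E).restrict hf)
    (((-X : E →L[ℂ] E) : E →ₗ[ℂ] E).restrict hg) ?_ ?_)
  · ext ⟨x, hx⟩
    have hx' : x + Y (X x) = 0 := hx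
    show Y (-X x) = x
    rw [map_neg]
    rw [← sub_eq_zero, ← neg_eq_zero, ← hx']
    abel
  · ext ⟨x, hx⟩
    have hx' : x + X (Y x) = 0 := hx
    show -X (Y x) = x
    rw [← sub_eq_zero, ← neg_eq_zero, ← hx']
    abel

theorem blk : S_BLK := by
  intro E _ _ _ L F hL hf1 hf2
  have hLL : ∀ x, L (L x) = L x := fun x => congrArg (fun T : E →L[ℂ] E => T x) hL
  unfold par
  rw [← Nat.add_mod, ← Module.finrank_prod]
  congr 1
  have a1 : ∀ x, (L * F * L + (1 - L) * F * (1 - L) : E →L[ℂ] E) x =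
      L (F (L x)) + (F (x - L x) - L (F (x - L x))) := fun x => rfl
  have a2 : ∀ x, (L * F * L + (1 - L) : E →L[ℂ] E) x = L (F (L x)) + (x - L x) := fun x => rfl
  have a3 : ∀ x, ((1 - L) * F * (1 - L) + L : E →L[ℂ] E) x =
      (F (x - L x) - L (F (x - L x))) + L x := fun x => rfl
  -- consequences of membership
  have m1 : ∀ x, (L * F * L + (1 - L) * F * (1 - L) : E →L[ℂ] E) x = 0 →
      L (F (L x)) = 0 ∧ F (x - L x) - L (F (x - L x)) = 0 := by
    intro x hx
    rw [a1] at hx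
    have h1 := congrArg L hx
    rw [map_add, map_sub, hLL, hLL, sub_self, add_zero, map_zero] at h1
    rw [h1, zero_add] at hx
    exact ⟨h1, hx⟩
  have m2 : ∀ x, (L * F * L + (1 - L) : E →L[ℂ] E) x = 0 → L x = x ∧ L (F (L x)) = 0 := by
    intro x hx
    rw [a2] at hx
    have h1 := congrArg L hx
    rw [map_add, map_sub, hLL, hLL, sub_self, add_zero, map_zero] at h1
    rw [h1, zero_add] at hx
    exact ⟨(sub_eq_zero.1 hx).symm, h1⟩
  have m3 : ∀ x, ((1 - L) * F * (1 - L) + L : E →L[ℂ] E) x = 0 →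
      L x = 0 ∧ F (x - L x) - L (F (x - L x)) = 0 := by
    intro x hx
    rw [a3] at hx
    have h1 := congrArg L hx
    rw [map_add, map_sub, hLL, hLL, sub_self, zero_add, map_zero] at h1
    rw [h1, add_zero] at hx
    exact ⟨h1, by rw [h1]; exact hx⟩
  have hf : ∀ x : LinearMap.ker ((L * F * L + (1 - L) * F * (1 - L) : E →L[ℂ] E) : E →ₗ[ℂ] E),
      L x.1 ∈ LinearMap.ker ((L * F * L + (1 - L) : E →L[ℂ] E) : E →ₗ[ℂ] E) := by
    intro x
    have h := m1 x.1 x.2
    show (L * F * L + (1 - L) : E →L[ℂ] E) (L x.1) = 0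
    rw [a2, hLL, h.1]
    simp
  have hg : ∀ x : LinearMap.ker ((L * F * L + (1 - L) * F * (1 - L) : E →L[ℂ] E) : E →ₗ[ℂ] E),
      x.1 - L x.1 ∈ LinearMap.ker (((1 - L) * F * (1 - L) + L : E →L[ℂ] E) : E →ₗ[ℂ] E) := by
    intro x
    have h := m1 x.1 x.2
    show ((1 - L) * F * (1 - L) + L : E →L[ℂ] E) (x.1 - L x.1) = 0
    have e : L (x.1 - L x.1) = 0 := by rw [map_sub, hLL, sub_self]
    rw [a3, e, sub_zero, h.2, add_zero]
  have hk : ∀ p : LinearMap.ker ((L * F * L + (1 - L) : E →L[ℂ] E) : E →ₗ[ℂ] E) ×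
      LinearMap.ker (((1 - L) * F * (1 - L) + L : E →L[ℂ] E) : E →ₗ[ℂ] E),
      p.1.1 + p.2.1 ∈
        LinearMap.ker ((L * F * L + (1 - L) * F * (1 - L) : E →L[ℂ] E) : E →ₗ[ℂ] E) := by
    intro p
    obtain ⟨h1, h2⟩ := m2 p.1.1 p.1.2
    obtain ⟨h3, h4⟩ := m3 p.2.1 p.2.2
    show (L * F * L + (1 - L) * F * (1 - L) : E →L[ℂ] E) (p.1.1 + p.2.1) = 0
    have e1 : L (p.1.1 + p.2.1) = p.1.1 := by rw [map_add, h1, h3, add_zero]
    have e2 : p.1.1 + p.2.1 - p.1.1 = p.2.1 - L p.2.1 := by rw [h3]; abel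
    have e3 : L (F p.1.1) = 0 := by rw [h1] at h2; exact h2
    rw [a1, e1, e2, h4, e3, add_zero]
  refine LinearEquiv.finrank_eq
    { toFun := fun x => (⟨L x.1, hf x⟩, ⟨x.1 - L x.1, hg x⟩)
      invFun := fun p => ⟨p.1.1 + p.2.1, hk p⟩
      map_add' := ?_
      map_smul' := ?_
      left_inv := ?_
      right_inv := ?_ }
  · intro x y
    refine Prod.ext (Subtype.ext ?_) (Subtype.ext ?_)
    · exact map_add L x.1 y.1
    · show (x.1 + y.1) - L (x.1 + y.1) = (x.1 - L x.1) + (y.1 - L y.1)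
      rw [map_add]
      abel
  · intro c x
    refine Prod.ext (Subtype.ext ?_) (Subtype.ext ?_)
    · exact map_smul L c x.1
    · show (c • x.1) - L (c • x.1) = c • (x.1 - L x.1)
      rw [map_smul, smul_sub]
  · intro x
    refine Subtype.ext ?_
    show L x.1 + (x.1 - L x.1) = x.1
    abel
  · intro p
    obtain ⟨h1, h2⟩ := m2 p.1.1 p.1.2
    obtain ⟨h3, h4⟩ := m3 p.2.1 p.2.2
    have e1 : L (p.1.1 + p.2.1) = p.1.1 := by rw [map_add, h1, h3, add_zero]
    refine Prod.ext (Subtype.ext ?_) (Subtype.ext ?_)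
    · exact e1
    · show p.1.1 + p.2.1 - L (p.1.1 + p.2.1) = p.2.1
      rw [e1]
      abel

end Pool.Agent.W214.FKM
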